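import Pool.Agent.Helper79.TL.Core
import Pool.Agent.Helper79.TL.W1
import Pool.Agent.Helper31.BrauerLift

/-!
# TL-E1, TL-E2: dimensions of `Vl` in the block of the natural module
-/

set_option autoImplicit false
set_option linter.unusedSectionVars false

open Module
open Pool.Agent.Helper31.Brauer

namespace Pool.Agent.Helper79.TL.E1

open GPre

/-- a fifth root of unity `≠ 1` in an algebraically closed field -/
lemma exists_zeta (K : Type) [Field K] [IsAlgClosed K] (h5 : (5 : K) ≠ 0) :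
    ∃ ζ : K, ζ ^ 5 = 1 ∧ ζ ≠ 1 := by
  obtain ⟨ζ, hζ⟩ := IsAlgClosed.exists_root
    (Polynomial.X ^ 4 + Polynomial.X ^ 3 + Polynomial.X ^ 2 + Polynomial.X + 1 : Polynomial K)
    (by
      have : (Polynomial.X ^ 4 + Polynomial.X ^ 3 + Polynomial.X ^ 2 + Polynomial.X + 1 :
        Polynomial K).degree = 4 := by compute_degree!
      rw [this]; norm_num)
  have h : ζ ^ 4 + ζ ^ 3 + ζ ^ 2 + ζ + 1 = 0 := by
    simpa [Polynomial.IsRoot.def] using hζ
  refine ⟨ζ, by linear_combination (ζ - 1) * h, fun h1 => h5 ?_⟩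
  rw [h1] at h
  linear_combination h

variable {G : Type} [Group G] [Fintype G] {D : GPre G}

/-- TL-E1 -/
theorem dim_F {F : Type} [Field F] [CharP F 3] (red : AlgInt →+* F)
    (hred : Function.Surjective red) (hD : D.Good) (lam : G → F) (hlam0 : Lam D lam = 0)
    {n : ℕ} (ρ : Representation F G (Fin n → F)) (hρ : ρ.IsIrreducible)
    (hρl : ∀ g, classSum ρ g = lam g • (LinearMap.id : (Fin n → F) →ₗ[F] (Fin n → F))) :
    finrank F ↥(D.Vl ρ) ≤ 2 := by
  have h3 : (3 : F) = 0 := by exact_mod_cast CharP.cast_eq_zero F 3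
  have h2 : (2 : F) ≠ 0 := fun h => one_ne_zero (α := F) (by linear_combination h3 - h)
  have h5 : (5 : F) ≠ 0 := fun h => one_ne_zero (α := F) (by linear_combination 2 * h3 - h)
  have h160 : (160 : F) ≠ 0 :=
    fun h => one_ne_zero (α := F) (by linear_combination h - 53 * h3)
  have : IsAlgClosed F := isAlgClosed red hred
  rcases subsingleton_or_nontrivial ↥(D.Vl ρ) with hsub | hnt
  · rw [finrank_zero_of_subsingleton]; exact Nat.zero_le _
  have hM := hmod ρ hD h2
  have hZ : Zop (tM ρ hD) (YM ρ hD) = 0 := by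
    ext m : 1
    have e1 := Zformula ρ hD h2 m
    rw [sum_E_of_classSum ρ lam hρl, hlam0, zero_smul] at e1
    have e2 := (smul_eq_zero.1 e1.symm).resolve_left h160
    exact Subtype.ext e2
  have hgen : ∀ u : ↥(D.Vl ρ), u ≠ 0 → Gen (tM ρ hD) (sM ρ hD) (YM ρ hD) u :=
    fun u hu => gen_of_irreducible ρ hD h2 u hu
  by_cases ht : tM ρ hD = 1
  · exact (fside_triv hM ht hZ hgen).trans (by norm_num)
  · obtain ⟨ζ, hζ, hζ1⟩ := exists_zeta F h5
    obtain ⟨ξ, v, hξ, hξ1, hv, htv⟩ := exists_eigen (tM ρ hD) hM.t5 ht h5 ζ hζ hζ1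
    obtain ⟨w, hw, htw, w0, w1, w2⟩ := fside_exists hM hZ ξ hξ hξ1 v hv htv
    have hY := fside_Y0 hM hgen ξ hξ hξ1 w hw htw w0 w1 w2
    exact fside_dim hM ξ hξ hξ1 w hw htw (hgen w hw) hY

/-- the scalar of the central element on a module with an eigenvector of `Zop` -/
lemma scalar_eq {K : Type} [Field K] {V : Type} [AddCommGroup V] [Module K V]
    (ρ : Representation K G V) (hD : D.Good) (h2 : (2 : K) ≠ 0) (lam : G → K)
    (hlam : ∀ g, classSum ρ g = lam g • (LinearMap.id : V →ₗ[K] V)) (m : ↥(D.Vl ρ)) (hm : m ≠ 0)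
    (c : K) (hN : Zop (tM ρ hD) (YM ρ hD) m = c • m) : Lam D lam = 160 * c := by
  have e1 := Zformula ρ hD h2 m
  rw [sum_E_of_classSum ρ lam hlam, hN, Submodule.coe_smul, smul_smul] at e1
  have hmV : (m : V) ≠ 0 := fun h => hm (Subtype.ext h)
  exact smul_left_injective K hmV e1

/-- TL-E2 -/
theorem dim_C {F : Type} [Field F] [CharP F 3] (red : AlgInt →+* F) (hD : D.Good)
    (lam : G → F) (hlam0 : Lam D lam = 0)
    {n : ℕ} (ρ : Representation ℂ G (Fin n → ℂ)) (hρ : ρ.IsIrreducible)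
    (hB : ρ.character ∈ IrrB red lam) :
    finrank ℂ ↥(D.Vl ρ) = 0 ∨ 3 ≤ finrank ℂ ↥(D.Vl ρ) := by
  by_contra hcon
  push Not at hcon
  obtain ⟨hc0, hc3⟩ := hcon
  have h3 : (3 : F) = 0 := by exact_mod_cast CharP.cast_eq_zero F 3
  have h2 : (2 : ℂ) ≠ 0 := by norm_num
  have hM := hmod ρ hD h2
  have hnt : Nontrivial ↥(D.Vl ρ) := Module.nontrivial_of_finrank_pos (R := ℂ) (by omega)
  obtain ⟨ζ, hζ, hζ1⟩ := exists_zeta ℂ (by norm_num)
  by_cases ht : tM ρ hD = 1
  · obtain ⟨m, hm, hZm⟩ := kside_triv hM ht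
    obtain ⟨Z, hZ1, hZ2⟩ := classSum_scalar red lam ρ hρ hB
    -- the scalar is an algebraic integer
    set Ω : AlgInt := ∑ a, (Nat.card ↥(Subgroup.centralizer {D.r a}) : AlgInt) * Z (D.r a) with hΩ
    have hΩC : Lam D (fun g => (Z g : ℂ)) = (Ω : ℂ) := by
      rw [hΩ, Lam]
      push_cast
      rfl
    have hΩF : red Ω = 0 := by
      rw [← hlam0, hΩ, Lam, map_sum]
      refine Finset.sum_congr rfl fun a _ => ?_
      rw [map_mul, map_natCast, hZ1]
    have key : ∀ N : ℕ, (Ω : ℂ) = (N : ℂ) → (N : F) = 0 := by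
      intro N hN
      have e2 : Ω = ((N : ℕ) : AlgInt) := by
        apply Subtype.ext
        rw [hN]
        exact (map_natCast (integralClosure ℤ ℂ).subtype N).symm
      rw [← map_natCast red, ← e2, hΩF]
    rcases hZm with h | h
    · have e1 := scalar_eq ρ hD h2 (fun g => (Z g : ℂ)) hZ2 m hm _ h
      rw [hΩC] at e1
      have e3 := key 17920 (by rw [e1]; norm_num)
      push_cast at e3
      apply one_ne_zero (α := F)
      linear_combination e3 - 5973 * h3
    · have e1 := scalar_eq ρ hD h2 (fun g => (Z g : ℂ)) hZ2 m hm _ h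
      rw [hΩC] at e1
      have e3 := key 56320 (by rw [e1]; norm_num)
      push_cast at e3
      apply one_ne_zero (α := F)
      linear_combination e3 - 18773 * h3
  · obtain ⟨ξ, v, hξ, hξ1, hv, htv⟩ := exists_eigen (tM ρ hD) hM.t5 ht (by norm_num) ζ hζ hζ1
    exact kside_nontriv hM (by omega) ξ hξ hξ1 v hv htv

end Pool.Agent.Helper79.TL.E1
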