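import Pool.Agent.Helper79.TL.Grp2
import Pool.Agent.Helper79.TL.W3

/-!
# TL-G5: the elements `B b * hel p` exhaust the group `GG`
-/

set_option autoImplicit false
set_option linter.unusedSectionVars false

open Module

namespace Pool.Agent.Helper79.TL.G5

/-- the relations used for the subgroup of order 320 -/
structure HRel {G : Type} [Group G] (D : GPre G) : Prop where
  z_comm : ∀ g, D.z * g = g * D.z
  z_sq : D.z * D.z = 1
  r_zero : D.r 0 = 1
  r_mul : ∀ a b, ∃ c, D.r a * D.r b = D.r c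
  t_pow : D.t ^ 5 = 1
  s_sq : D.s * D.s = 1
  s_t : D.s * D.t = D.t ^ 4 * D.s
  t_r : ∀ a, ∃ b, D.t * D.r a = D.r b * D.t
  s_r : ∀ a, ∃ b, D.s * D.r a = D.r b * D.s

section

variable {G : Type} [Group G] {D : GPre G}

/-- the elements of the subgroup of order 320 -/
def InH (D : GPre G) (g : G) : Prop := ∃ p, g = D.hel p

lemma pow_mod {x : G} {n : ℕ} (hx : x ^ n = 1) (m : ℕ) : x ^ m = x ^ (m % n) := by
  conv_lhs => rw [← Nat.mod_add_div m n, pow_add, pow_mul, hx, one_pow, mul_one]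

lemma inH_mk (hD : HRel D) (ε : ℕ) (a : Fin 16) (k e : ℕ) :
    InH D (D.z ^ ε * D.r a * D.t ^ k * D.s ^ e) := by
  refine ⟨(⟨ε % 2, Nat.mod_lt _ (by norm_num)⟩, a, ⟨k % 5, Nat.mod_lt _ (by norm_num)⟩,
    ⟨e % 2, Nat.mod_lt _ (by norm_num)⟩), ?_⟩
  simp only [GPre.hel]
  rw [pow_mod (n := 2) (by rw [pow_two, hD.z_sq]) ε, pow_mod hD.t_pow k,
    pow_mod (n := 2) (by rw [pow_two, hD.s_sq]) e]

lemma inH_cases {g : G} (hg : InH D g) :
    ∃ (ε : ℕ) (a : Fin 16) (k e : ℕ), g = D.z ^ ε * D.r a * D.t ^ k * D.s ^ e := by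
  obtain ⟨p, rfl⟩ := hg
  exact ⟨_, _, _, _, rfl⟩

lemma inH_z (hD : HRel D) {g : G} (hg : InH D g) : InH D (D.z * g) := by
  obtain ⟨ε, a, k, e, rfl⟩ := inH_cases hg
  have := inH_mk hD (ε + 1) a k e
  rwa [pow_succ', mul_assoc, mul_assoc, mul_assoc, ← mul_assoc (D.z ^ ε),
    ← mul_assoc (D.z ^ ε * D.r a)] at this

lemma zpow_comm (hD : HRel D) (ε : ℕ) (g : G) : g * D.z ^ ε = D.z ^ ε * g := by
  have h : Commute D.z g := hD.z_comm g
  exact (h.pow_left ε).eq.symm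

lemma inH_r (hD : HRel D) (b : Fin 16) {g : G} (hg : InH D g) : InH D (D.r b * g) := by
  obtain ⟨ε, a, k, e, rfl⟩ := inH_cases hg
  obtain ⟨c, hc⟩ := hD.r_mul b a
  have := inH_mk hD ε c k e
  rw [← hc] at this
  convert this using 1
  rw [← mul_assoc, ← mul_assoc, ← mul_assoc, zpow_comm hD, mul_assoc (D.z ^ ε) (D.r b)]

lemma inH_t (hD : HRel D) {g : G} (hg : InH D g) : InH D (D.t * g) := by
  obtain ⟨ε, a, k, e, rfl⟩ := inH_cases hg
  obtain ⟨c, hc⟩ := hD.t_r a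
  have := inH_mk hD ε c (k + 1) e
  rw [pow_succ', ← mul_assoc (D.z ^ ε * D.r c), mul_assoc (D.z ^ ε) (D.r c), ← hc] at this
  convert this using 1
  rw [← mul_assoc, ← mul_assoc, ← mul_assoc, zpow_comm hD, mul_assoc (D.z ^ ε) D.t]

lemma s_tpow (hD : HRel D) (k : ℕ) : D.s * D.t ^ k = D.t ^ (4 * k) * D.s := by
  induction k with
  | zero => simp
  | succ k ih =>
    rw [pow_succ, ← mul_assoc, ih, mul_assoc, hD.s_t, ← mul_assoc, ← pow_add, mul_add, mul_one]

lemma inH_s (hD : HRel D) {g : G} (hg : InH D g) : InH D (D.s * g) := by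
  obtain ⟨ε, a, k, e, rfl⟩ := inH_cases hg
  obtain ⟨c, hc⟩ := hD.s_r a
  have := inH_mk hD ε c (4 * k) (e + 1)
  convert this using 1
  calc D.s * (D.z ^ ε * D.r a * D.t ^ k * D.s ^ e)
      = (D.s * D.z ^ ε) * (D.r a * (D.t ^ k * D.s ^ e)) := by group
    _ = D.z ^ ε * (D.s * D.r a) * (D.t ^ k * D.s ^ e) := by rw [zpow_comm hD]; group
    _ = D.z ^ ε * D.r c * (D.s * D.t ^ k) * D.s ^ e := by rw [hc]; group
    _ = D.z ^ ε * D.r c * D.t ^ (4 * k) * D.s ^ (e + 1) := by rw [s_tpow hD, pow_succ']; group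

lemma inH_pow {x : G} (hx : ∀ g, InH D g → InH D (x * g)) (n : ℕ) {g : G} (hg : InH D g) :
    InH D (x ^ n * g) := by
  induction n with
  | zero => simpa using hg
  | succ n ih => rw [pow_succ', mul_assoc]; exact hx _ ih

lemma inH_mul (hD : HRel D) {g h : G} (hg : InH D g) (hh : InH D h) : InH D (g * h) := by
  obtain ⟨ε, a, k, e, rfl⟩ := inH_cases hg
  rw [mul_assoc, mul_assoc, mul_assoc]
  exact inH_pow (fun _ => inH_z hD) ε (inH_r hD a (inH_pow (fun _ => inH_t hD) k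
    (inH_pow (fun _ => inH_s hD) e hh)))

end

lemma hrel : HRel D0 := by
  obtain ⟨h1, h2, h3, -, h5, -, h7, h8, h9, h10, h11, -, -⟩ := goodPre_D0_a
  exact ⟨h1, h2, h3, h5, h7, h8, h9, h10, h11⟩

/-- the set of the `B b * hel p` -/
def InS (g : U) : Prop := ∃ b p, g = D0.B b * D0.hel p

lemma step (i : Fin 11) {g : U} (hg : InS g) : InS (genU i * g) := by
  obtain ⟨b, p, rfl⟩ := hg
  have h1 := lT_ok i b
  generalize dB ((lT.getD i []).getD (iB b) (0, 0)).1 = b' at h1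
  generalize dH ((lT.getD i []).getD (iB b) (0, 0)).2 = h at h1
  have h2 : genU i * D0.B b = D0.B b' * D0.hel h := by
    apply U_ext
    rw [Units.val_mul, Units.val_mul, genU_val, B_val, B_val, hel_val, ← toM_mulN, ← toM_mulN, h1]
  obtain ⟨q, hq⟩ := inH_mul hrel ⟨h, rfl⟩ ⟨p, rfl⟩
  exact ⟨b', q, by rw [← mul_assoc, h2, mul_assoc, hq]⟩

lemma step_pow (i : Fin 11) (n : ℕ) {g : U} (hg : InS g) : InS (genU i ^ n * g) := by
  induction n with
  | zero => simpa using hg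
  | succ n ih => rw [pow_succ', mul_assoc]; exact step i ih

lemma gen_pow (i : Fin 11) : genU i ^ 10 = 1 := by
  obtain ⟨-, h2, -, -, -, h6, h7, h8, -, -, -, -, h13⟩ := goodPre_D0_a
  have key : ∀ u : U, u * u = 1 → u ^ 10 = 1 := by
    intro u hu
    rw [show (10 : ℕ) = 2 * 5 from rfl, pow_mul, pow_two, hu, one_pow]
  have hw : D0.w * D0.w = 1 := by
    apply U_ext
    rw [Units.val_mul, Units.val_one, ← toM_cI, ← cw_inv, toM_mulN]
    rfl
  fin_cases i
  · exact key _ h2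
  · exact key _ (h6 1)
  · exact key _ (h6 2)
  · exact key _ (h6 4)
  · exact key _ (h6 8)
  · change D0.t ^ (5 * 2) = 1
    rw [pow_mul, h7, one_pow]
  · exact key _ h8
  · exact key _ hw
  · exact key _ (h13 0)
  · exact key _ (h13 1)
  · exact key _ (h13 2)

/-- TL-G5 -/
theorem cover : ∀ g ∈ GG, ∃ b p, g = D0.B b * D0.hel p := by
  intro g hg
  change InS g
  induction hg using Subgroup.closure_induction_left with
  | one =>
    obtain ⟨q, hq⟩ := inH_mk hrel 0 0 0 0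
    refine ⟨.inl none, q, ?_⟩
    rw [← hq]
    simp [GPre.B, hrel.r_zero]
  | mul_left x hx y hy ih =>
    obtain ⟨i, rfl⟩ := hx
    exact step i ih
  | inv_mul_cancel x hx y hy ih =>
    obtain ⟨i, rfl⟩ := hx
    have : (genU i)⁻¹ = genU i ^ 9 := by
      rw [inv_eq_iff_mul_eq_one, ← pow_succ', gen_pow]
    rw [this]
    exact step_pow i 9 ih

end Pool.Agent.Helper79.TL.G5
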