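import Pool.Agent.Helper79.TL.Psl
import Pool.Agent.Helper79.TL.W4

/-!
# TL-S3: a triple with trivial permutation has second component `1` or `z`
-/

set_option autoImplicit false

open Module Matrix
open scoped MatrixGroups

namespace Pool.Agent.Helper79.TL.S3

/-- product of a coded matrix and a coded vector -/
noncomputable def mulV (a v : ℕ) : ℕ := ds (fun i =>
  en a (6 * i) * en v 0 + en a (6 * i + 1) * en v 1 + en a (6 * i + 2) * en v 2 +
  en a (6 * i + 3) * en v 3 + en a (6 * i + 4) * en v 4 + en a (6 * i + 5) * en v 5) 6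

/-- the vector with code `v` -/
def toV (v : ℕ) : Fin 6 → ZMod 3 := fun j => (en v j : ZMod 3)

lemma toV_mulV (a v : ℕ) : toV (mulV a v) = toM a *ᵥ toV v := by
  ext i
  have hi := i.2
  rw [Matrix.mulVec, dotProduct, Fin.sum_univ_six, toV, mulV, en_ds _ _ _ (by omega), cast_mod]
  simp only [toM, toV]
  push_cast
  simp

lemma mulV_lt (a v : ℕ) : mulV a v < 729 := ds_lt _ 6

/-- code of a vector -/
def cv (v : Fin 6 → ZMod 3) : ℕ :=
  (v 0).val + 3 * (v 1).val + 9 * (v 2).val + 27 * (v 3).val + 81 * (v 4).val + 243 * (v 5).val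

lemma cv_toV {u : ℕ} (hu : u < 729) : cv (toV u) = u := by
  have h : ∀ k, ((en u k : ℕ) : ZMod 3).val = en u k := by
    intro k
    rw [ZMod.val_natCast, en, Nat.mod_mod]
  simp only [cv, toV, h]
  simp only [en, Fin.isValue, Fin.val_zero, Fin.val_one, Fin.val_two, pow_zero, Nat.div_one]
  have e3 : ((3 : Fin 6) : ℕ) = 3 := rfl
  have e4 : ((4 : Fin 6) : ℕ) = 4 := rfl
  have e5 : ((5 : Fin 6) : ℕ) = 5 := rfl
  rw [e3, e4, e5]
  norm_num
  omega

/-- codes of the first vectors of the frames 0, 1, 2, 3 (for frame 0: the last vector) -/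
lemma toV_c0 : toV 243 = fr 0 5 := by decide +kernel
lemma toV_c0' : toV 486 = -fr 0 5 := by decide +kernel
lemma toV_c1 : toV 40 = fr 1 0 := by decide +kernel
lemma toV_c2 : toV 94 = fr 2 0 := by decide +kernel
lemma toV_c3 : toV 256 = fr 3 0 := by decide +kernel

/-- codes of the vectors of the frames -/
def L0 : List ℕ := [1, 2, 3, 6, 9, 18, 27, 54, 81, 162, 243, 486]
/-- codes of the vectors of the frames -/
def L1 : List ℕ := [40, 52, 68, 80, 353, 379, 420, 426, 582, 588, 677, 703]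
/-- codes of the vectors of the frames -/
def L2 : List ℕ := [94, 98, 184, 188, 302, 304, 369, 441, 518, 520, 639, 711]
/-- codes of the vectors of the frames -/
def L3 : List ℕ := [146, 154, 200, 208, 256, 266, 357, 465, 502, 512, 597, 705]

lemma mem_L0 : ∀ k, cv (fr 0 k) ∈ L0 ∧ cv (-fr 0 k) ∈ L0 := by decide +kernel
lemma mem_L1 : ∀ k, cv (fr 1 k) ∈ L1 ∧ cv (-fr 1 k) ∈ L1 := by decide +kernel
lemma mem_L2 : ∀ k, cv (fr 2 k) ∈ L2 ∧ cv (-fr 2 k) ∈ L2 := by decide +kernel
lemma mem_L3 : ∀ k, cv (fr 3 k) ∈ L3 ∧ cv (-fr 3 k) ∈ L3 := by decide +kernel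

/-- membership test -/
def inL (L : List ℕ) (v : ℕ) : Bool := L.any (fun c => Nat.beq c v)

lemma inL_of_mem {L : List ℕ} {v : ℕ} (h : v ∈ L) : inL L v = true := by
  rw [inL, List.any_eq_true]
  exact ⟨v, h, Nat.beq_refl v⟩

set_option maxRecDepth 100000 in
lemma hel_last : (List.range 320).all (fun q =>
    Nat.beq (mulV (lH.getD q 0) 243) 243 || Nat.beq (mulV (lH.getD q 0) 243) 486) = true := by
  decide +kernel

set_option maxRecDepth 100000 in
lemma B_last : (List.range 120).all (fun n =>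
    !(inL L0 (mulV (lB.getD (n + 6) 0) 243)) && !(inL L0 (mulV (lB.getD (n + 6) 0) 486))) =
      true := by
  decide +kernel

set_option maxRecDepth 100000 in
lemma tests : (List.range 6).all (fun n => (List.range 320).all (fun q =>
    !(inL L1 (mulV (lB.getD n 0) (mulV (lH.getD q 0) 40))) ||
    (!(inL L2 (mulV (lB.getD n 0) (mulV (lH.getD q 0) 94))) ||
    (!(inL L3 (mulV (lB.getD n 0) (mulV (lH.getD q 0) 256))) ||
      (Nat.beq n 0 && (Nat.beq q 0 || Nat.beq q 160)))))) = true := by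
  decide +kernel

lemma iB_lt : ∀ b : GPre.BI, iB b < 126 := by decide +kernel
lemma iB_zero : ∀ b : GPre.BI, iB b = 0 → b = .inl none := by decide +kernel
lemma iH_lt : ∀ p : GPre.HI, iH p < 320 := by decide +kernel
lemma iH_z : ∀ p : GPre.HI, (iH p = 0 → p = (0, 0, 0, 0)) ∧ (iH p = 160 → p = (1, 0, 0, 0)) := by
  decide +kernel

lemma frames_disj : ∀ i j : Fin 21, ∀ k, (fr i 0 = fr j k ∨ fr i 0 = -fr j k) → i = j := by
  decide +kernel

lemma z_val : ((D0.z : U) : Matrix (Fin 6) (Fin 6) (ZMod 3)) = -1 := by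
  change toM cz = -1
  decide +kernel

/-- the action of `B b * hel p` on a coded vector -/
lemma act (b : GPre.BI) (p : GPre.HI) (v : ℕ) :
    ((D0.B b * D0.hel p : U) : Matrix (Fin 6) (Fin 6) (ZMod 3)) *ᵥ toV v =
      toV (mulV (lB.getD (iB b) 0) (mulV (lH.getD (iH p) 0) v)) := by
  rw [toV_mulV, toV_mulV, lB_ok, lH_ok, Units.val_mul, B_val, hel_val, Matrix.mulVec_mulVec]

/-- TL-S3 -/
theorem one_or_z_iff : ∀ x ∈ EE, x.2.2 = 1 ↔ (x.2.1 = 1 ∨ x.2.1 = D0.z) := by
  intro x hx
  obtain ⟨-, hc⟩ := compat_EE x hx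
  constructor
  · intro h1
    obtain ⟨b, p, hg⟩ := cover _ (EE_mem_GG.1 x hx)
    rw [h1, hg] at hc
    simp only [Equiv.Perm.coe_one, id_eq] at hc
    -- codes of the images
    have key : ∀ (i : Fin 21) (L : List ℕ) (k : Fin 6) (c : ℕ), toV c = fr i k →
        (∀ k, cv (fr i k) ∈ L ∧ cv (-fr i k) ∈ L) →
        inL L (mulV (lB.getD (iB b) 0) (mulV (lH.getD (iH p) 0) c)) = true := by
      intro i L k c hcv hL
      apply inL_of_mem
      obtain ⟨k', hk'⟩ := hc i k
      rw [← hcv, act] at hk'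
      rw [← cv_toV (mulV_lt (lB.getD (iB b) 0) (mulV (lH.getD (iH p) 0) c))]
      rcases hk' with h | h
      · rw [h]; exact (hL k').1
      · rw [h]; exact (hL k').2
    -- the coset representative is `1` or `t ^ k * w`
    have hb : iB b < 6 := by
      by_contra hlt
      have t0 := key 0 L0 5 243 toV_c0 mem_L0
      have h2 := List.all_eq_true.1 hel_last (iH p) (List.mem_range.2 (iH_lt p))
      have h3 := List.all_eq_true.1 B_last (iB b - 6)
        (List.mem_range.2 (by have := iB_lt b; omega))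
      rw [show iB b - 6 + 6 = iB b by omega] at h3
      simp only [Bool.and_eq_true, Bool.not_eq_true'] at h3
      simp only [Bool.or_eq_true] at h2
      rcases h2 with h2 | h2
      · rw [Nat.eq_of_beq_eq_true h2, h3.1] at t0; exact Bool.noConfusion t0
      · rw [Nat.eq_of_beq_eq_true h2, h3.2] at t0; exact Bool.noConfusion t0
    have h4 := List.all_eq_true.1 (List.all_eq_true.1 tests (iB b) (List.mem_range.2 hb)) (iH p)
      (List.mem_range.2 (iH_lt p))
    rw [key 1 L1 0 40 toV_c1 mem_L1, key 2 L2 0 94 toV_c2 mem_L2,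
      key 3 L3 0 256 toV_c3 mem_L3] at h4
    simp only [Bool.not_true, Bool.false_or, Bool.and_eq_true, Bool.or_eq_true] at h4
    obtain ⟨hb0, hp⟩ := h4
    have hB := iB_zero b (Nat.eq_of_beq_eq_true hb0)
    have hr0 : D0.r 0 = 1 := goodPre_D0_a.2.2.1
    rw [hg, hB]
    rcases hp with hp | hp
    · left
      rw [(iH_z p).1 (Nat.eq_of_beq_eq_true hp)]
      simp [GPre.B, GPre.hel, hr0]
    · right
      rw [(iH_z p).2 (Nat.eq_of_beq_eq_true hp)]
      simp [GPre.B, GPre.hel, hr0]
  · intro h1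
    ext1 i
    obtain ⟨k', hk'⟩ := hc i 0
    have h2 : fr i 0 = fr (x.2.2 i) k' ∨ fr i 0 = -fr (x.2.2 i) k' := by
      rcases h1 with h | h
      · rw [h, Units.val_one, Matrix.one_mulVec] at hk'
        exact hk'
      · rw [h, z_val, Matrix.neg_mulVec, Matrix.one_mulVec] at hk'
        rcases hk' with h | h
        · right; rw [← h, neg_neg]
        · left; exact neg_injective h
    exact (frames_disj i _ k' h2).symm

end Pool.Agent.Helper79.TL.S3
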